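import Mathlib

set_option autoImplicit false

namespace Pool.Agent.Results.MP_bd62ae_co.Counter

/-- `g` is the nim-sequence of the subtraction game with subtraction set `S`. -/
def IsNim (S : Finset ℕ) (g : ℕ → ℕ) : Prop :=
  ∀ n, IsLeast {m | ∀ s ∈ S, s ≤ n → g (n - s) ≠ m} (g n)

def UltBip (g : ℕ → ℕ) : Prop := ∃ n₀, ∀ k, g (n₀ + 2 * k) = 0 ∧ g (n₀ + 2 * k + 1) = 1

def Ex (g : ℕ → ℕ) : Set ℕ := {s | 0 < s ∧ ∀ n, g (n + s) ≠ g n}

def Star (S : Finset ℕ) (p : ℕ) : Set ℕ := {t | ∃ s ∈ S, ∃ m, t = s + m * p}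

def g (n : ℕ) : ℕ :=
  if n < 26 then [0, 0, 0, 1, 1, 1, 0, 0, 0, 1, 1, 1, 2, 2, 0, 3, 3, 1, 2, 2, 0, 3, 3, 1, 0, 2].getD n 0
  else n % 2

lemma big {n : ℕ} (h : 26 ≤ n) : g n = n % 2 := if_neg (by omega)

theorem result : ∃ (S : Finset ℕ) (g : ℕ → ℕ), (∀ s ∈ S, 0 < s) ∧ IsNim S g ∧ UltBip g ∧
    Ex g ≠ S ∧ Ex g ≠ Star S 2 := by
  refine ⟨{3, 11, 15}, g, by simp, fun n => ?_, ⟨26, fun k => ?_⟩, fun e => ?_, fun e => ?_⟩
  · have : (∀ s ∈ ({3, 11, 15} : Finset ℕ), s ≤ n → g (n - s) ≠ g n) ∧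
        ∀ m < g n, ∃ s ∈ ({3, 11, 15} : Finset ℕ), s ≤ n ∧ g (n - s) = m := by
      by_cases h : n < 41
      · revert n; decide +kernel
      · simp only [Finset.mem_insert, Finset.mem_singleton]
        refine ⟨fun s hs _ => ?_, fun m hm => ⟨3, by simp, by omega, ?_⟩⟩
        · rw [big (by omega), big (by omega)]; omega
        · rw [big (by omega)] at hm ⊢; omega
    refine ⟨this.1, fun m hm => not_lt.1 fun h => ?_⟩
    obtain ⟨s, a, b, c⟩ := this.2 m h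
    exact hm s a b c
  · rw [big (by omega), big (by omega)]; omega
  · have : 9 ∈ Ex g := ⟨by simp, fun n => by
      by_cases h : n < 26
      · revert n; decide +kernel
      · rw [big (by omega), big (by omega)]; omega⟩
    simp [e] at this
  · have : 5 ∈ Ex g := e ▸ ⟨3, by simp, 1, rfl⟩
    exact this.2 1 (by decide)

end Pool.Agent.Results.MP_bd62ae_co.Counter
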